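import Pool.Agent.Helper37.KD.Defs

/-! KD project, Part I: basic facts on convolutions and levels -/

namespace KD

open Finset

section group
variable {G : Type*} [Fintype G] [AddCommGroup G]

theorem sum_shift (f : G → ℝ) (w : G) : ∑ z, f (z + w) = ∑ z, f z :=
  Fintype.sum_equiv (Equiv.addRight w) _ _ (fun _ => rfl)

theorem sum_shift_sub (f : G → ℝ) (w : G) : ∑ z, f (z - w) = ∑ z, f z :=
  Fintype.sum_equiv (Equiv.subRight w) _ _ (fun _ => rfl)

theorem sum_neg (f : G → ℝ) : ∑ z, f (-z) = ∑ z, f z :=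
  Fintype.sum_equiv (Equiv.neg G) _ _ (fun _ => rfl)

theorem cv_apply' (q f : G → ℝ) (z : G) : cv q f z = ∑ w, q (z - w) * f w := by
  unfold cv
  refine Fintype.sum_equiv (Equiv.subLeft z) _ _ (fun w => ?_)
  simp [Equiv.subLeft]

theorem cv_comm (q f : G → ℝ) : cv q f = cv f q := by
  funext z
  rw [cv_apply']
  unfold cv
  exact Finset.sum_congr rfl (fun w _ => mul_comm _ _)

theorem cv_shift (q f : G → ℝ) (z w : G) : cv q f (z + w) = cv q (fun y => f (y + w)) z := by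
  unfold cv
  refine Finset.sum_congr rfl (fun v _ => ?_)
  congr 2
  abel

/-- shift on the kernel -/
theorem cv_shift_ker (q f : G → ℝ) (z w : G) : cv q f (z + w) = cv (fun y => q (y + w)) f z := by
  rw [cv_comm, cv_shift, cv_comm]

theorem cv_assoc (p q f : G → ℝ) : cv p (cv q f) = cv (cv p q) f := by
  funext z
  have h1 : cv p (cv q f) z = ∑ w, ∑ v, p w * q (v - w) * f (z - v) := by
    unfold cv
    refine Finset.sum_congr rfl (fun w _ => ?_)
    rw [Finset.mul_sum]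
    have := sum_shift_sub (fun v => p w * (q v * f (z - w - v))) w
    rw [← this]
    refine Finset.sum_congr rfl (fun v _ => ?_)
    have : z - w - (v - w) = z - v := by abel
    rw [this]; ring
  have h2 : cv (cv p q) f z = ∑ v, ∑ w, p w * q (v - w) * f (z - v) := by
    unfold cv
    refine Finset.sum_congr rfl (fun v _ => ?_)
    rw [Finset.sum_mul]
  rw [h1, h2, Finset.sum_comm]

theorem cv_left_comm (p q f : G → ℝ) : cv p (cv q f) = cv q (cv p f) := by
  rw [cv_assoc, cv_comm p q, ← cv_assoc]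

theorem sum_cv (q f : G → ℝ) : ∑ z, cv q f z = (∑ w, q w) * ∑ z, f z := by
  unfold cv
  rw [Finset.sum_comm, Finset.sum_mul]
  refine Finset.sum_congr rfl (fun w _ => ?_)
  rw [← Finset.mul_sum, sum_shift_sub]

theorem cv_nonneg {q f : G → ℝ} (hq : ∀ z, 0 ≤ q z) (hf : ∀ z, 0 ≤ f z) (z : G) : 0 ≤ cv q f z :=
  Finset.sum_nonneg (fun w _ => mul_nonneg (hq w) (hf _))

theorem cv_pos {q f : G → ℝ} (hq : ∀ z, 0 < q z) (hf : ∀ z, 0 ≤ f z) (hs : 0 < ∑ z, f z) (z : G) :
    0 < cv q f z := by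
  obtain ⟨y, hy⟩ : ∃ y, 0 < f y := by
    by_contra h
    push Not at h
    exact absurd hs (not_lt.2 (Finset.sum_nonpos (fun z _ => h z)))
  rw [cv_apply']
  exact Finset.sum_pos' (fun w _ => mul_nonneg (hq _).le (hf w)) ⟨y, Finset.mem_univ _, mul_pos (hq _) hy⟩

theorem cv_mono {q f g : G → ℝ} (hq : ∀ z, 0 ≤ q z) (h : ∀ z, f z ≤ g z) (z : G) :
    cv q f z ≤ cv q g z :=
  Finset.sum_le_sum (fun w _ => mul_le_mul_of_nonneg_left (h _) (hq w))

theorem cv_add (q f g : G → ℝ) : cv q (fun z => f z + g z) = fun z => cv q f z + cv q g z := by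
  funext z; unfold cv; rw [← Finset.sum_add_distrib]
  exact Finset.sum_congr rfl (fun w _ => by ring)

theorem cv_sub (q f g : G → ℝ) : cv q (fun z => f z - g z) = fun z => cv q f z - cv q g z := by
  funext z; unfold cv; rw [← Finset.sum_sub_distrib]
  exact Finset.sum_congr rfl (fun w _ => by ring)

theorem cv_smul (q f : G → ℝ) (c : ℝ) : cv q (fun z => c * f z) = fun z => c * cv q f z := by
  funext z; unfold cv; rw [Finset.mul_sum]
  exact Finset.sum_congr rfl (fun w _ => by ring)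

theorem cv_sum {ι : Type*} (t : Finset ι) (q : G → ℝ) (f : ι → G → ℝ) :
    cv q (fun z => ∑ i ∈ t, f i z) = fun z => ∑ i ∈ t, cv q (f i) z := by
  funext z; unfold cv; rw [Finset.sum_comm]
  exact Finset.sum_congr rfl (fun w _ => by rw [Finset.mul_sum])

theorem lev_zero (q : ℕ → G → ℝ) (f : G → ℝ) : lev q f 0 = f := rfl
theorem lev_succ (q : ℕ → G → ℝ) (f : G → ℝ) (k : ℕ) : lev q f (k + 1) = cv (q k) (lev q f k) := rfl

theorem lev_nonneg {q : ℕ → G → ℝ} {f : G → ℝ} {n : ℕ} (hq : ∀ k < n, ∀ z, 0 ≤ q k z)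
    (hf : ∀ z, 0 ≤ f z) : ∀ z, 0 ≤ lev q f n z := by
  induction n with
  | zero => exact hf
  | succ n ih =>
      exact cv_nonneg (hq n (Nat.lt_succ_self n)) (ih (fun k hk => hq k (Nat.lt_succ_of_lt hk)))

theorem sum_lev {q : ℕ → G → ℝ} {f : G → ℝ} {n : ℕ} (hq : ∀ k < n, ∑ z, q k z = 1) :
    ∑ z, lev q f n z = ∑ z, f z := by
  induction n with
  | zero => rfl
  | succ n ih =>
      rw [lev_succ, sum_cv, hq n (Nat.lt_succ_self n), one_mul, ih (fun k hk => hq k (Nat.lt_succ_of_lt hk))]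

theorem lev_pos {q : ℕ → G → ℝ} {f : G → ℝ} {n : ℕ} (hq : ∀ k < n + 1, ∀ z, 0 < q k z)
    (hq1 : ∀ k < n + 1, ∑ z, q k z = 1)
    (hf : ∀ z, 0 ≤ f z) (hs : 0 < ∑ z, f z) : ∀ z, 0 < lev q f (n + 1) z := by
  intro z
  rw [lev_succ]
  refine cv_pos (hq n (Nat.lt_succ_self n)) (lev_nonneg (fun k hk => fun z => (hq k (by omega) z).le) hf) ?_ z
  rw [sum_lev (fun k hk => hq1 k (by omega))]
  exact hs

theorem lev_mono {q : ℕ → G → ℝ} {f g : G → ℝ} {n : ℕ} (hq : ∀ k < n, ∀ z, 0 ≤ q k z)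
    (h : ∀ z, f z ≤ g z) : ∀ z, lev q f n z ≤ lev q g n z := by
  induction n with
  | zero => exact h
  | succ n ih =>
      exact cv_mono (hq n (Nat.lt_succ_self n)) (ih (fun k hk => hq k (Nat.lt_succ_of_lt hk)))

theorem lev_smul (q : ℕ → G → ℝ) (f : G → ℝ) (c : ℝ) (n : ℕ) :
    lev q (fun z => c * f z) n = fun z => c * lev q f n z := by
  induction n with
  | zero => rfl
  | succ n ih => rw [lev_succ, ih, cv_smul]; rfl

theorem lev_add (q : ℕ → G → ℝ) (f g : G → ℝ) (n : ℕ) :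
    lev q (fun z => f z + g z) n = fun z => lev q f n z + lev q g n z := by
  induction n with
  | zero => rfl
  | succ n ih => rw [lev_succ, ih, cv_add]; rfl

theorem lev_sub (q : ℕ → G → ℝ) (f g : G → ℝ) (n : ℕ) :
    lev q (fun z => f z - g z) n = fun z => lev q f n z - lev q g n z := by
  induction n with
  | zero => rfl
  | succ n ih => rw [lev_succ, ih, cv_sub]; rfl

theorem lev_sum {ι : Type*} (t : Finset ι) (q : ℕ → G → ℝ) (f : ι → G → ℝ) (n : ℕ) :
    lev q (fun z => ∑ i ∈ t, f i z) n = fun z => ∑ i ∈ t, lev q (f i) n z := by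
  induction n with
  | zero => rfl
  | succ n ih => rw [lev_succ, ih, cv_sum]; rfl

theorem lev_shift (q : ℕ → G → ℝ) (f : G → ℝ) (w : G) (n : ℕ) (z : G) :
    lev q f n (z + w) = lev q (fun y => f (y + w)) n z := by
  induction n generalizing z with
  | zero => rfl
  | succ n ih =>
      rw [lev_succ, lev_succ, cv_shift]
      have : (fun y => lev q f n (y + w)) = lev q (fun y => f (y + w)) n := funext ih
      rw [this]

end group

/-! ### facts on environments -/

theorem tim_pos (s : ℝ) (k : ℕ) : 0 < tim s k := Real.rpow_pos_of_pos two_pos _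

theorem tim_zero (s : ℝ) : tim s 0 = 1 := by simp [tim]

theorem tim_add (s : ℝ) (j k : ℕ) : tim s (j + k) = tim s j * tim s k := by
  unfold tim
  rw [← Real.rpow_add two_pos]
  push_cast
  ring_nf

theorem one_le_tim {s : ℝ} (hs : 0 < s) (k : ℕ) : 1 ≤ tim s k :=
  Real.one_le_rpow one_le_two (by positivity)

theorem tim_le_tim {s : ℝ} (hs : 0 < s) {j k : ℕ} (h : j ≤ k) : tim s j ≤ tim s k := by
  unfold tim
  refine Real.rpow_le_rpow_of_exponent_le one_le_two ?_
  have : (j : ℝ) ≤ k := by exact_mod_cast h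
  nlinarith

namespace Env
variable {d : ℕ} {s c0 C0 C1 : ℝ} (E : Env d s c0 C0 C1)

theorem R_pos (k : ℕ) : 0 < E.R k := by
  unfold Env.R Rad
  have := E.hM
  have := E.hε
  have := tim_pos s k
  positivity

theorem q_pos {k : ℕ} (hk : k ≤ E.K) (z : E.G) : 0 < E.q k z := (E.ker k hk).pos z
theorem q_mass {k : ℕ} (hk : k ≤ E.K) : ∑ z, E.q k z = 1 := (E.ker k hk).mass

theorem u_nonneg {μ : E.G → ℝ} (hμ : IsP μ) {k : ℕ} (hk : k ≤ E.K + 1) (z : E.G) :
    0 ≤ lev E.q μ k z :=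
  lev_nonneg (fun j hj z => (E.q_pos (by omega) z).le) hμ.nn z

theorem u_sum {μ : E.G → ℝ} (hμ : IsP μ) {k : ℕ} (hk : k ≤ E.K + 1) :
    ∑ z, lev E.q μ k z = 1 := by
  rw [sum_lev (fun j hj => E.q_mass (by omega)), hμ.one]

theorem u_pos {μ : E.G → ℝ} (hμ : IsP μ) {k : ℕ} (hk : k ≤ E.K) (z : E.G) :
    0 < lev E.q μ (k + 1) z :=
  lev_pos (q := E.q) (fun j hj z => E.q_pos (by omega) z) (fun j hj => E.q_mass (by omega)) hμ.nn
    (by rw [hμ.one]; exact one_pos) z

/-- `u_{k+1}` is log-Lipschitz at scale `k` -/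
theorem u_lip {μ : E.G → ℝ} (hμ : IsP μ) {k : ℕ} (hk : k ≤ E.K) (z w : E.G) :
    lev E.q μ (k + 1) (z + w) ≤ Real.exp (E.nm k w) * lev E.q μ (k + 1) z := by
  rw [lev_succ, cv_shift_ker]
  unfold cv
  rw [Finset.mul_sum]
  refine Finset.sum_le_sum (fun v _ => ?_)
  have h1 := (E.ker k hk).lip v w
  have h2 := E.u_nonneg hμ (k := k) (by omega) (z - v)
  calc _ ≤ (Real.exp (E.nm k w) * E.q k v) * lev E.q μ k (z - v) :=
        mul_le_mul_of_nonneg_right h1 h2
    _ = _ := by ring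

end Env

end KD
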