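import Mathlib

/-! KD project (MP_019250_an), Part I: definitions.  Paper proof: /team-store/KD_part1.md -/

namespace KD

open Finset

/-! ### convolution, levels, functionals on a finite abelian group -/

section group
variable {G : Type*} [Fintype G] [AddCommGroup G]

/-- convolution `(q*f)(z) = ∑_w q(w) f(z-w)` -/
noncomputable def cv (q f : G → ℝ) : G → ℝ := fun z => ∑ w, q w * f (z - w)

/-- levels: `lev q f 0 = f`, `lev q f (k+1) = q_k * lev q f k` -/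
noncomputable def lev (q : ℕ → G → ℝ) (f : G → ℝ) : ℕ → G → ℝ
  | 0 => f
  | k + 1 => cv (q k) (lev q f k)

/-- squared Hellinger distance between `u` and its shift by `w` -/
noncomputable def he (u : G → ℝ) (w : G) : ℝ := ∑ z, (√(u (z + w)) - √(u z)) ^ 2

/-- entropy `∑ u log u` -/
noncomputable def Ht (u : G → ℝ) : ℝ := ∑ z, u z * Real.log (u z)

/-- the quadratic functional `∑ m²/u` -/
noncomputable def Qf (m u : G → ℝ) : ℝ := ∑ z, m z ^ 2 / u z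

/-- probability vector -/
structure IsP (μ : G → ℝ) : Prop where
  nn : ∀ z, 0 ≤ μ z
  one : ∑ z, μ z = 1

end group

/-! ### the group `G = V × V`, `V = (ℤ/N)^d` -/

abbrev V (d N : ℕ) : Type := Fin d → ZMod N
abbrev GG (d N : ℕ) : Type := V d N × V d N

/-- cyclic `ℓ¹` norm -/
def n1 {d N : ℕ} (x : V d N) : ℝ := ∑ i, ((x i).valMinAbs.natAbs : ℝ)
/-- cyclic sup norm -/
def nsup {d N : ℕ} (x : V d N) : ℕ := Finset.univ.sup (fun i => (x i).valMinAbs.natAbs)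

/-- `x`-shift and `v`-shift vectors -/
def xs {d N : ℕ} (u : V d N) : GG d N := (u, 0)
def vs {d N : ℕ} (w : V d N) : GG d N := (0, w)

/-- unit vector -/
def ee {d N : ℕ} (i : Fin d) : V d N := Pi.single i 1

/-- `A^{-τ}` and `A^τ`, `A (x,y) = (x+y,y)` -/
def Am {d N : ℕ} (τ : ℕ) (z : GG d N) : GG d N := (z.1 - τ • z.2, z.2)
def Ap {d N : ℕ} (τ : ℕ) (z : GG d N) : GG d N := (z.1 + τ • z.2, z.2)

/-- weighted norm `‖w‖ = |w^x|/R + |w^v|/r` -/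
noncomputable def nrm {d N : ℕ} (r R : ℝ) (w : GG d N) : ℝ := n1 w.1 / R + n1 w.2 / r

/-- first order commutator kernel `q - A q` and its linear part -/
noncomputable def com1 {d N : ℕ} (q : GG d N → ℝ) (w : GG d N) : ℝ := q w - q (Am 1 w)
noncomputable def lin1 {d N : ℕ} (q : GG d N → ℝ) (w : GG d N) : ℝ :=
  (1 / 2) * ∑ i, ((w.2 i).valMinAbs : ℝ) * (q (w + xs (ee i)) - q (w - xs (ee i)))

/-- noise kernel at scale `(r,R)` with constant `C1` -/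
structure Ker {d N : ℕ} [NeZero N] (r R C1 : ℝ) (q : GG d N → ℝ) : Prop where
  pos : ∀ z, 0 < q z
  mass : ∑ z, q z = 1
  symx : ∀ x y, q (-x, y) = q (x, y)
  symv : ∀ x y, q (x, -y) = q (x, y)
  lip : ∀ z w, q (z + w) ≤ Real.exp (nrm r R w) * q z
  mom : ∑ w, q w * Real.exp (nrm r R w / 2) ≤ C1
  c1 : ∑ w, com1 q w ^ 2 / q w ≤ C1 * (r / R) ^ 2
  c2 : ∑ w, (com1 q w - lin1 q w) ^ 2 / q w ≤ C1 * (r / R) ^ 4

/-- `r_k^{2s}`, `r_k = 2^k` -/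
noncomputable def tim (s : ℝ) (k : ℕ) : ℝ := (2 : ℝ) ^ (2 * s * (k : ℝ))
/-- `R_k = (M/ε) 2^k 2^{2sk}` -/
noncomputable def Rad (s M ε : ℝ) (k : ℕ) : ℝ := M / ε * 2 ^ k * tim s k

/-- jump system -/
structure JSys (d N J : ℕ) (c0 C0 : ℝ) (Θ : Type) [Fintype Θ] where
  m : Θ → ℝ
  neg : Θ → Θ
  pi : ℕ → Θ → V d N
  m_nn : ∀ θ, 0 ≤ m θ
  neg_neg : ∀ θ, neg (neg θ) = θ
  m_neg : ∀ θ, m (neg θ) = m θ
  pi_neg : ∀ j θ, pi j (neg θ) = - pi j θ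
  pi_lo : ∀ j ≤ J, ∀ θ, 2 ^ j ≤ nsup (pi j θ)
  pi_hi : ∀ j ≤ J, ∀ θ, nsup (pi j θ) < 2 ^ (j + 1)
  mass : ∑ θ, m θ ≤ C0
  cover : ∀ j ≤ J, ∀ l : V d N, 2 ^ j ≤ nsup l → nsup l < 2 ^ (j + 1) →
    c0 / 2 ^ (d * j) ≤ ∑ θ, if pi j θ = l then m θ else 0

namespace JSys
variable {d N J : ℕ} [NeZero N] {c0 C0 : ℝ} {Θ : Type} [Fintype Θ] (S : JSys d N J c0 C0 Θ)

/-- weight of the jump `(j,θ)` -/
noncomputable def wt (s : ℝ) (j : ℕ) (θ : Θ) : ℝ := S.m θ / tim s j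
/-- jump vector -/
def jv (j : ℕ) (θ : Θ) : GG d N := vs (S.pi j θ)

/-- coefficients at a fixed time -/
structure Coef (lam Lam M0 : ℝ) (a : ℕ → Θ → GG d N → ℝ) : Prop where
  lo : ∀ j θ z, lam ≤ a j θ z
  hi : ∀ j θ z, a j θ z ≤ Lam
  symm : ∀ j θ z, a j (S.neg θ) z = a j θ z
  bv : ∀ θ z, ∑ j ∈ range J, |a (j + 1) θ z - a j θ z| ≤ M0

/-- jump operator on laws -/
noncomputable def Jop (s ε : ℝ) (a : ℕ → Θ → GG d N → ℝ) (μ : GG d N → ℝ) : GG d N → ℝ := fun z =>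
  μ z + ε * ∑ j ∈ range (J + 1), ∑ θ, S.wt s j θ *
    (a j θ (z + S.jv j θ) * μ (z + S.jv j θ) - a j θ z * μ z)

/-- one step: jump, then transport -/
noncomputable def step (s ε : ℝ) (a : ℕ → Θ → GG d N → ℝ) (μ : GG d N → ℝ) : GG d N → ℝ := fun z =>
  S.Jop s ε a μ (Am 1 z)

/-- the chain started at `0` -/
noncomputable def chain (s ε : ℝ) (a : ℕ → ℕ → Θ → GG d N → ℝ) : ℕ → GG d N → ℝ
  | 0 => Pi.single 0 1
  | n + 1 => S.step s ε (a n) (chain s ε a n)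

/-- information functional of a positive function `u` -/
noncomputable def If (s : ℝ) (u : GG d N → ℝ) : ℝ :=
  ∑ j ∈ range (J + 1), ∑ θ, S.wt s j θ *
    ∑ z, (u (z + S.jv j θ) - u z) * (Real.log (u (z + S.jv j θ)) - Real.log (u z))

/-- coefficient error functional: density `u`, `b_{j,θ} = (a_{j,θ} μ)` at the same level -/
noncomputable def Ef (s : ℝ) (b : ℕ → Θ → GG d N → ℝ) (u : GG d N → ℝ) : ℝ :=
  ∑ j ∈ range (J + 1), ∑ θ, S.wt s j θ *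
    ∑ z, min (u z) (u (z + S.jv j θ)) * (b j θ (z + S.jv j θ) / u (z + S.jv j θ) - b j θ z / u z) ^ 2

end JSys

/-- the static data: torus size `N`, number of scales `K`, `M`, `ε`, noise kernels, jump system -/
structure Env (d : ℕ) (s c0 C0 C1 : ℝ) where
  N : ℕ
  [ne : NeZero N]
  K : ℕ
  M : ℝ
  ε : ℝ
  hM : 1 ≤ M
  hε : 0 < ε
  hε1 : ε ≤ 1 / 8
  hN : 2 ^ (K + 8) ≤ N
  hNR : Rad s M ε K ≤ N
  hodd : Odd N
  q : ℕ → GG d N → ℝ
  ker : ∀ k ≤ K, Ker (2 ^ k) (Rad s M ε k) C1 (q k)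
  Θ : Type
  [fΘ : Fintype Θ]
  S : JSys d N (K + 3) c0 C0 Θ

attribute [instance] Env.ne Env.fΘ

namespace Env
variable {d : ℕ} {s c0 C0 C1 : ℝ} (E : Env d s c0 C0 C1)

abbrev G : Type := GG d E.N

/-- radius `R_k` of the environment -/
noncomputable def R (k : ℕ) : ℝ := Rad s E.M E.ε k
/-- norm at scale `k` -/
noncomputable def nm (k : ℕ) (w : E.G) : ℝ := nrm (2 ^ k) (E.R k) w

/-- `b_{j,θ} = lev (a_{j,θ} μ) k` -/
noncomputable def bl (a : ℕ → E.Θ → E.G → ℝ) (μ : E.G → ℝ) (k j : ℕ) (θ : E.Θ) : E.G → ℝ :=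
  lev E.q (fun z => a j θ z * μ z) k

/-- `I_k`, `E_k` of the paper: density `u_{k+1}` -/
noncomputable def Ik (μ : E.G → ℝ) (k : ℕ) : ℝ := E.S.If s (lev E.q μ (k + 1))
noncomputable def Ek (a : ℕ → E.Θ → E.G → ℝ) (μ : E.G → ℝ) (k : ℕ) : ℝ :=
  E.S.Ef s (E.bl a μ (k + 1)) (lev E.q μ (k + 1))

/-- `x`-variation and weighted `v`-variation of `u_k` against the kernel `q_k` -/
noncomputable def Xk (μ : E.G → ℝ) (k : ℕ) : ℝ :=
  ∑ w, E.q k w * he (lev E.q μ k) (xs (w.1 + w.1))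
noncomputable def Yk (μ : E.G → ℝ) (k : ℕ) : ℝ :=
  ∑ w, E.q k w * n1 w.2 ^ 2 * he (lev E.q μ k) (vs (w.2 + w.2))

/-- one step and the chain -/
noncomputable def step (a : ℕ → E.Θ → E.G → ℝ) (μ : E.G → ℝ) : E.G → ℝ := E.S.step s E.ε a μ
noncomputable def Jop (a : ℕ → E.Θ → E.G → ℝ) (μ : E.G → ℝ) : E.G → ℝ := E.S.Jop s E.ε a μ
noncomputable def chain (a : ℕ → ℕ → E.Θ → E.G → ℝ) : ℕ → E.G → ℝ := E.S.chain s E.ε a

end Env

end KD
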