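import Pool.Agent.Helper37.KD.Basic

/-! KD Part I: definitions for the transport commutator -/

namespace KD

open Finset

namespace Env
variable {d : ℕ} {s c0 C0 C1 : ℝ} (E : Env d s c0 C0 C1)

/-- `m_{j,i}` at level `k+1`: `q_k*…*q_{j+1}*(([w^v_i]q_j)*u_j)` -/
noncomputable def mm (ν : E.G → ℝ) (k j : ℕ) (i : Fin d) : E.G → ℝ :=
  lev (fun l => E.q (j + 1 + l))
    (cv (fun w : E.G => ((w.2 i).valMinAbs : ℝ) * E.q j w) (lev E.q ν j)) (k - j)

/-- the commutator error -/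
noncomputable def Er (ν : E.G → ℝ) (k : ℕ) : E.G → ℝ := fun z =>
  lev E.q ν (k + 1) z - lev E.q (fun y => ν (Ap 1 y)) (k + 1) (Am 1 z)
    - (1 / 2) * ∑ j ∈ range (k + 1), ∑ i, (E.mm ν k j i (z + xs (ee i)) - E.mm ν k j i (z - xs (ee i)))

end Env

end KD
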