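import Mathlib

/-! KD project (MP_019250_an): kernels, operator, classical supersolutions (sup norm version).
`Vd d = Fin d → ℝ` carries the sup norm. -/

namespace KD

open Finset MeasureTheory

abbrev Vd (d : ℕ) : Type := Fin d → ℝ

/-- admissible kernels: the kernel is `a t x v w * ‖w‖^{-(d+2s)}` -/
structure Kern {d : ℕ} (lam Lam M0 : ℝ) (a : ℝ → Vd d → Vd d → Vd d → ℝ) : Prop where
  meas : ∀ t x v, Measurable (a t x v)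
  even : ∀ t x v w, a t x v (-w) = a t x v w
  lo : ∀ t x v w, lam ≤ a t x v w
  hi : ∀ t x v w, a t x v w ≤ Lam
  bv : ∀ t x v w, ‖w‖ ≤ 1 → ∀ n : ℕ,
    ∑ j ∈ range n, |a t x v ((1 / 2 : ℝ) ^ (j + 1) • w) - a t x v ((1 / 2 : ℝ) ^ j • w)| ≤ M0

/-- the nonlocal operator (second difference form, equal to the principal value integral) -/
noncomputable def Lop {d : ℕ} (s : ℝ) (a : ℝ → Vd d → Vd d → Vd d → ℝ) (f : ℝ → Vd d → Vd d → ℝ)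
    (t : ℝ) (x v : Vd d) : ℝ :=
  (1 / 2) * ∫ w : Vd d, (f t x (v + w) + f t x (v - w) - 2 * f t x v) * a t x v w *
    ‖w‖ ^ (-((d : ℝ) + 2 * s))

/-- classical regularity on the open set `D` with the derivatives `ft = ∂_t f`, `fx = ∇_x f`,
`fv = ∇_v f`, `fvv = D_v² f` -/
structure Reg {d : ℕ} (f : ℝ → Vd d → Vd d → ℝ) (ft : ℝ → Vd d → Vd d → ℝ)
    (fx fv : ℝ → Vd d → Vd d → (Vd d →L[ℝ] ℝ)) (fvv : ℝ → Vd d → Vd d → (Vd d →L[ℝ] Vd d →L[ℝ] ℝ))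
    (D : Set (ℝ × Vd d × Vd d)) : Prop where
  opn : IsOpen D
  cf : ContinuousOn (fun p : ℝ × Vd d × Vd d => f p.1 p.2.1 p.2.2) D
  dt : ∀ p ∈ D, HasDerivAt (fun t => f t p.2.1 p.2.2) (ft p.1 p.2.1 p.2.2) p.1
  dx : ∀ p ∈ D, HasFDerivAt (fun x => f p.1 x p.2.2) (fx p.1 p.2.1 p.2.2) p.2.1
  dv : ∀ p ∈ D, HasFDerivAt (fun v => f p.1 p.2.1 v) (fv p.1 p.2.1 p.2.2) p.2.2
  dvv : ∀ p ∈ D, HasFDerivAt (fun v => fv p.1 p.2.1 v) (fvv p.1 p.2.1 p.2.2) p.2.2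
  ct : ContinuousOn (fun p : ℝ × Vd d × Vd d => ft p.1 p.2.1 p.2.2) D
  cx : ContinuousOn (fun p : ℝ × Vd d × Vd d => fx p.1 p.2.1 p.2.2) D
  cv : ContinuousOn (fun p : ℝ × Vd d × Vd d => fv p.1 p.2.1 p.2.2) D
  cvv : ContinuousOn (fun p : ℝ × Vd d × Vd d => fvv p.1 p.2.1 p.2.2) D

/-- `f` is a classical supersolution on `D` with error `η`:
`∂_t f + v·∇_x f ≥ L f - η` on `D`; globally measurable in `v` and bounded. -/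
structure Super {d : ℕ} (s η : ℝ) (a : ℝ → Vd d → Vd d → Vd d → ℝ) (f : ℝ → Vd d → Vd d → ℝ)
    (D : Set (ℝ × Vd d × Vd d)) : Prop where
  meas : ∀ t x, Measurable (f t x)
  bdd : ∃ A : ℝ, ∀ t x v, |f t x v| ≤ A
  sup : ∃ ft fx fv fvv, Reg f ft fx fv fvv D ∧
    ∀ p ∈ D, Lop s a f p.1 p.2.1 p.2.2 - η ≤ ft p.1 p.2.1 p.2.2 + fx p.1 p.2.1 p.2.2 p.2.2

/-- kinetic translation and (dyadic) scaling: `z ↦ z₀ ∘ S_r z`,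
`z₀∘(t,x,v) = (t₀+t, x₀+x+t v₀, v₀+v)`, `S_r (t,x,v) = (r^{2s} t, r^{1+2s} x, r v)` -/
noncomputable def tt (s r t0 t : ℝ) : ℝ := t0 + r ^ (2 * s) * t
noncomputable def tx {d : ℕ} (s r : ℝ) (x0 v0 : Vd d) (t : ℝ) (x : Vd d) : Vd d :=
  x0 + r ^ (1 + 2 * s) • x + (r ^ (2 * s) * t) • v0
noncomputable def tv {d : ℕ} (r : ℝ) (v0 v : Vd d) : Vd d := v0 + r • v

/-- transformed function and kernel -/
noncomputable def trf {d : ℕ} (s r t0 : ℝ) (x0 v0 : Vd d) (f : ℝ → Vd d → Vd d → ℝ) :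
    ℝ → Vd d → Vd d → ℝ :=
  fun t x v => f (tt s r t0 t) (tx s r x0 v0 t x) (tv r v0 v)
noncomputable def tra {d : ℕ} (s r t0 : ℝ) (x0 v0 : Vd d) (a : ℝ → Vd d → Vd d → Vd d → ℝ) :
    ℝ → Vd d → Vd d → Vd d → ℝ :=
  fun t x v w => a (tt s r t0 t) (tx s r x0 v0 t x) (tv r v0 v) (r • w)
/-- transformed domain -/
def trD {d : ℕ} (s r t0 : ℝ) (x0 v0 : Vd d) (D : Set (ℝ × Vd d × Vd d)) : Set (ℝ × Vd d × Vd d) :=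
  {p | (tt s r t0 p.1, tx s r x0 v0 p.1 p.2.1, tv r v0 p.2.2) ∈ D}

/-- kinetic (sheared) box `z_b ∘ ([0,α]×[0,ξ]^d×[0,β]^d)` -/
def KBox {d : ℕ} (tb : ℝ) (xb vb : Vd d) (α ξ β : ℝ) : Set (ℝ × Vd d × Vd d) :=
  {p | 0 ≤ p.1 - tb ∧ p.1 - tb ≤ α ∧
    (∀ i, 0 ≤ p.2.1 i - xb i - (p.1 - tb) * vb i ∧ p.2.1 i - xb i - (p.1 - tb) * vb i ≤ ξ) ∧
    (∀ i, 0 ≤ p.2.2 i - vb i ∧ p.2.2 i - vb i ≤ β)}

/-- the closed unit cylinder `[-1,0] × {‖x‖≤1} × {‖v‖≤1}` -/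
def Q1 (d : ℕ) : Set (ℝ × Vd d × Vd d) := {p | -1 ≤ p.1 ∧ p.1 ≤ 0 ∧ ‖p.2.1‖ ≤ 1 ∧ ‖p.2.2‖ ≤ 1}

end KD
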